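import Pool.Agent.Helper35.HSF.StC

/-! # Project HSF, module HNB: normal curvatures and invariants. -/

set_option autoImplicit false

namespace Helper34.HSF

open Helper35.HSF Helper35.MS Helper35.PI Helper35.PI2 Helper32.CL
open scoped ContDiff Topology Manifold BigOperators
open Set Filter

section Matrix

variable {n : ℕ}

/-- The quadratic form of `K`. -/
def QK (K : Fin n → Fin n → ℝ) (U : Fin n → ℝ) : ℝ := ∑ i, ∑ j, U i * U j * K i j

/-- The unit vector. -/
def eU (a : Fin n) : Fin n → ℝ := fun i => if i = a then 1 else 0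

theorem sum_eU (a : Fin n) : ∑ i, eU a i ^ 2 = 1 := by
  simp [eU]

theorem QK_eU (K : Fin n → Fin n → ℝ) (a : Fin n) : QK K (eU a) = K a a := by
  simp [QK, eU]

theorem QK_cs (K : Fin n → Fin n → ℝ) (U : Fin n → ℝ) :
    QK K U ^ 2 ≤ (∑ i, ∑ j, K i j ^ 2) * (∑ i, U i ^ 2) ^ 2 := by
  have h := Finset.sum_mul_sq_le_sq_mul_sq (Finset.univ : Finset (Fin n × Fin n))
    (fun p => U p.1 * U p.2) (fun p => K p.1 p.2)
  simp only [Fintype.sum_prod_type] at h
  have e : ∑ i, ∑ j, (U i * U j) ^ 2 = (∑ i, U i ^ 2) ^ 2 := by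
    rw [_root_.sq, Finset.sum_mul_sum]
    simp only [mul_pow]
  rw [e, mul_comm] at h
  exact h

theorem QK_smul (K : Fin n → Fin n → ℝ) (s : ℝ) (U : Fin n → ℝ) :
    QK K (fun i => s * U i) = s ^ 2 * QK K U := by
  simp only [QK, Finset.mul_sum]
  refine Finset.sum_congr rfl fun i _ => Finset.sum_congr rfl fun j _ => ?_
  ring

theorem QK_pol (K : Fin n → Fin n → ℝ) (hK : ∀ i j, K i j = K j i) (s : ℝ) (a : Fin n)
    (V : Fin n → ℝ) :
    QK K (fun i => s * eU a i + V i) - QK K (fun i => s * eU a i - V i)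
      = 4 * s * ∑ j, V j * K a j := by
  have h1 : QK K (fun i => s * eU a i + V i) - QK K (fun i => s * eU a i - V i)
      = 2 * s * (∑ i, ∑ j, eU a i * V j * K i j) + 2 * s * ∑ i, ∑ j, V i * eU a j * K i j := by
    simp only [QK, Finset.mul_sum, ← Finset.sum_add_distrib, ← Finset.sum_sub_distrib]
    refine Finset.sum_congr rfl fun i _ => Finset.sum_congr rfl fun j _ => ?_
    ring
  have h2 : ∑ i, ∑ j, eU a i * V j * K i j = ∑ j, V j * K a j := by
    simp [eU]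
  have h3 : ∑ i, ∑ j, V i * eU a j * K i j = ∑ j, V j * K a j := by
    simp only [eU, mul_ite, mul_one, mul_zero, ite_mul, zero_mul, Finset.sum_ite_eq',
      Finset.mem_univ, if_true]
    exact Finset.sum_congr rfl fun i _ => by rw [hK i a]
  rw [h1, h2, h3]
  ring

theorem par_law (s : ℝ) (a : Fin n) (V : Fin n → ℝ) :
    ∑ i, (s * eU a i + V i) ^ 2 + ∑ i, (s * eU a i - V i) ^ 2 = 2 * (s ^ 2 + ∑ i, V i ^ 2) := by
  have h1 : ∑ i, (s * eU a i + V i) ^ 2 + ∑ i, (s * eU a i - V i) ^ 2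
      = 2 * (s ^ 2 * ∑ i, eU a i ^ 2 + ∑ i, V i ^ 2) := by
    simp only [Finset.mul_sum, ← Finset.sum_add_distrib]
    refine Finset.sum_congr rfl fun i _ => ?_
    ring
  rw [h1, sum_eU, mul_one]

/-- If the quadratic form is less than `m` on unit vectors then `|K|² < n m²`. -/
theorem QK_lt (hn : 1 ≤ n) (K : Fin n → Fin n → ℝ) (hK : ∀ i j, K i j = K j i) (m : ℝ)
    (hm : ∀ U : Fin n → ℝ, ∑ i, U i ^ 2 = 1 → |QK K U| < m) :
    ∑ i, ∑ j, K i j ^ 2 < n * m ^ 2 := by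
  have a0 : Fin n := ⟨0, hn⟩
  have hm0 : 0 < m := lt_of_le_of_lt (abs_nonneg _) (hm (eU a0) (sum_eU a0))
  have hW : ∀ W : Fin n → ℝ, 0 < ∑ i, W i ^ 2 → |QK K W| < m * ∑ i, W i ^ 2 := by
    intro W hs
    set s := ∑ i, W i ^ 2 with hs'
    have h1 : ∑ i, ((Real.sqrt s)⁻¹ * W i) ^ 2 = 1 := by
      simp only [mul_pow, ← Finset.mul_sum]
      rw [← hs', inv_pow, Real.sq_sqrt hs.le, inv_mul_cancel₀ hs.ne']
    have h2 := hm _ h1
    rw [QK_smul, inv_pow, Real.sq_sqrt hs.le, abs_mul, abs_of_pos (inv_pos.2 hs),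
      inv_mul_lt_iff₀ hs] at h2
    linarith
  have hW' : ∀ W : Fin n → ℝ, |QK K W| ≤ m * ∑ i, W i ^ 2 := by
    intro W
    rcases (Finset.sum_nonneg fun i _ => sq_nonneg (W i) : 0 ≤ ∑ i, W i ^ 2).eq_or_lt with h | h
    · have h3 := QK_cs K W
      rw [← h] at h3
      have h4 : QK K W ^ 2 ≤ 0 := by simpa using h3
      have h5 : QK K W = 0 := by
        have := le_antisymm h4 (sq_nonneg _)
        exact pow_eq_zero_iff (two_ne_zero) |>.1 this
      rw [h5, abs_zero, ← h, mul_zero]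
    · exact (hW W h).le
  have hrow : ∀ a, ∑ j, K a j ^ 2 < m ^ 2 := by
    intro a
    set r := ∑ j, K a j ^ 2 with hr
    have hr0 : 0 ≤ r := Finset.sum_nonneg fun i _ => sq_nonneg _
    rcases hr0.eq_or_lt with h | h
    · rw [← h]; positivity
    · have hp := QK_pol K hK (Real.sqrt r) a (K a)
      have hq := par_law (Real.sqrt r) a (K a)
      have e1 : ∑ j, K a j * K a j = r := by
        rw [hr]; exact Finset.sum_congr rfl fun j _ => (_root_.sq _).symm
      rw [e1] at hp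
      rw [← hr, Real.sq_sqrt hr0] at hq
      have hsr : 0 < Real.sqrt r := Real.sqrt_pos.2 h
      have hlt : |QK K (fun i => Real.sqrt r * eU a i + K a i)|
          + |QK K (fun i => Real.sqrt r * eU a i - K a i)| < m * (4 * r) := by
        rcases (Finset.sum_nonneg fun i _ => sq_nonneg (Real.sqrt r * eU a i + K a i) :
          0 ≤ ∑ i, (Real.sqrt r * eU a i + K a i) ^ 2).eq_or_lt with h6 | h6
        · have h7 : 0 < ∑ i, (Real.sqrt r * eU a i - K a i) ^ 2 := by linarith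
          have h8 := hW _ h7
          have h9 := hW' (fun i => Real.sqrt r * eU a i + K a i)
          nlinarith
        · have h8 := hW _ h6
          have h9 := hW' (fun i => Real.sqrt r * eU a i - K a i)
          nlinarith
      have h10 : 4 * Real.sqrt r * r < m * (4 * r) := by
        rw [← hp]
        have h11 := le_abs_self (QK K (fun i => Real.sqrt r * eU a i + K a i))
        have h12 := neg_abs_le (QK K (fun i => Real.sqrt r * eU a i - K a i))
        linarith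
      have h13 : Real.sqrt r < m := by
        by_contra hcon
        push Not at hcon
        nlinarith [mul_le_mul_of_nonneg_right hcon h.le]
      calc r = Real.sqrt r ^ 2 := (Real.sq_sqrt hr0).symm
        _ < m ^ 2 := by gcongr
  calc ∑ i, ∑ j, K i j ^ 2 < ∑ _i : Fin n, m ^ 2 :=
        Finset.sum_lt_sum_of_nonempty ⟨a0, Finset.mem_univ _⟩ fun i _ => hrow i
    _ = n * m ^ 2 := by simp

/-- The maximal absolute eigenvalue. -/
theorem QK_ex (hn : 1 ≤ n) (K : Fin n → Fin n → ℝ) (hK : ∀ i j, K i j = K j i) :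
    ∃ U : Fin n → ℝ, ∑ i, U i ^ 2 = 1 ∧ ∑ i, ∑ j, K i j ^ 2 ≤ n * QK K U ^ 2 := by
  by_contra hcon
  push Not at hcon
  have hn0 : (0 : ℝ) < n := by exact_mod_cast hn
  set h := ∑ i, ∑ j, K i j ^ 2 with hh
  have hh0 : 0 ≤ h := Finset.sum_nonneg fun i _ => Finset.sum_nonneg fun j _ => sq_nonneg _
  have h1 := QK_lt hn K hK (Real.sqrt (h / n)) (by
    intro U hU
    have h2 := hcon U hU
    rw [← Real.sqrt_sq_eq_abs]
    apply Real.sqrt_lt_sqrt (sq_nonneg _)
    rw [lt_div_iff₀ hn0]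
    linarith)
  rw [Real.sq_sqrt (by positivity), mul_div_cancel₀ _ hn0.ne'] at h1
  exact lt_irrefl _ h1

theorem tr_cs (K : Fin n → Fin n → ℝ) : (∑ i, K i i) ^ 2 ≤ n * ∑ i, ∑ j, K i j ^ 2 := by
  have h := Finset.sum_mul_sq_le_sq_mul_sq (Finset.univ : Finset (Fin n)) (fun _ => (1 : ℝ))
    (fun i => K i i)
  simp only [one_mul, one_pow, Finset.sum_const, Finset.card_univ, Fintype.card_fin, nsmul_eq_mul,
    mul_one] at h
  refine h.trans ?_
  refine mul_le_mul_of_nonneg_left ?_ (Nat.cast_nonneg n)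
  refine Finset.sum_le_sum fun i _ => ?_
  exact Finset.single_le_sum (f := fun j => K i j ^ 2) (fun j _ => sq_nonneg _)
    (Finset.mem_univ i)

/-- Trace free part. -/
theorem QK_tf (hn : 1 ≤ n) (K : Fin n → Fin n → ℝ) (U : Fin n → ℝ) (hU : ∑ i, U i ^ 2 = 1) :
    (QK K U - (∑ i, K i i) / n) ^ 2 ≤ (∑ i, ∑ j, K i j ^ 2) - (∑ i, K i i) ^ 2 / n := by
  have hn0 : (0 : ℝ) < n := by exact_mod_cast hn
  set τ := (∑ i, K i i) / n with hτ
  set K0 : Fin n → Fin n → ℝ := fun i j => K i j - (if i = j then τ else 0) with hK0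
  have h1 := QK_cs K0 U
  rw [hU, one_pow, mul_one] at h1
  have e1 : QK K0 U = QK K U - τ := by
    have : QK K0 U = QK K U - τ * ∑ i, U i ^ 2 := by
      simp only [QK, hK0, mul_sub, Finset.sum_sub_distrib, mul_ite, mul_zero,
        Finset.sum_ite_eq, Finset.mem_univ, if_true, Finset.mul_sum]
      congr 1
      exact Finset.sum_congr rfl fun i _ => by ring
    rw [this, hU, mul_one]
  have e2 : ∑ i, ∑ j, K0 i j ^ 2 = (∑ i, ∑ j, K i j ^ 2) - (∑ i, K i i) ^ 2 / n := by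
    have h2 : ∀ i j, K0 i j ^ 2 = K i j ^ 2 - (if i = j then 2 * τ * K i j - τ ^ 2 else 0) := by
      intro i j
      simp only [hK0]
      split_ifs <;> ring
    simp only [h2, Finset.sum_sub_distrib, Finset.sum_ite_eq, Finset.mem_univ, if_true,
      Finset.sum_const, Finset.card_univ, Fintype.card_fin, nsmul_eq_mul, ← Finset.mul_sum]
    rw [hτ]
    field_simp
    ring
  rw [e1, e2] at h1
  exact h1

theorem tr_max (hn : 1 ≤ n) (K : Fin n → Fin n → ℝ) : ∃ a, ∑ i, K i i ≤ n * K a a := by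
  by_contra hcon
  push Not at hcon
  have hn0 : (0 : ℝ) < n := by exact_mod_cast hn
  have h1 : ∑ a, n * K a a < ∑ _a : Fin n, ∑ i, K i i :=
    Finset.sum_lt_sum_of_nonempty ⟨⟨0, hn⟩, Finset.mem_univ _⟩ fun a _ => hcon a
  rw [← Finset.mul_sum] at h1
  simp at h1

end Matrix

theorem sum_ee (n : ℕ) (U : Fin n → ℝ) (j : Fin n) :
    (∑ i, U i • (ee i : EE n)) j = U j := by
  simp [ee, Finset.sum_apply, Pi.single_apply]

theorem nrm_ee (n : ℕ) (U : Fin n → ℝ) : ‖∑ i, U i • (ee i : EE n)‖ ^ 2 = ∑ i, U i ^ 2 := by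
  rw [EuclideanSpace.norm_sq_eq]
  refine Finset.sum_congr rfl fun j _ => ?_
  rw [sum_ee, Real.norm_eq_abs, sq_abs]

theorem hHNB (hEVF : StEVF) (hGCH : StGCH) (hNUJ : StNUJ) (hC1 : StC1) : StHNB := by
  intro n hn1 M _ _ _ J F ν hF q t ht
  obtain ⟨L, hL⟩ := hC1 n (n + 2) _ (hF.mcf.imm q t ht)
  obtain ⟨u, θ, hG, -, hV⟩ := hGCH n (n + 2) M J F hF.mcf q t ht L hL
  have hK := hNUJ n M J F ν hF q t ht L u θ hG (hV ν hF.sν).1
    (fun i j => inner ℝ (jgg u (0, t) i j) (ν q t)) rfl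
  obtain ⟨-, hsym, -, -, hH, hh, -, -⟩ := hK
  set K : Fin n → Fin n → ℝ := fun i j => inner ℝ (jgg u (0, t) i j) (ν q t) with hKdef
  obtain ⟨-, -, hE⟩ := hEVF n hn1 M J F ν hF
  obtain ⟨-, -, hth, -⟩ := hE q t ht
  have hgn : ∀ (c U : Fin n → ℝ), tv F q t c = ∑ i, U i • L (ee i) →
      gn F q t c = ∑ i, U i ^ 2 := by
    intro c U h
    have e : ∑ i, U i • L (ee i) = L (∑ i, U i • ee i) := by
      rw [map_sum]
      exact Finset.sum_congr rfl fun i _ => by rw [map_smul]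
    rw [gn, h, e, L.norm_map, nrm_ee]
  have hhn : ∀ (c U : Fin n → ℝ),
      An F q t c = ∑ i, ∑ j, (U i * U j) • jgg u (0, t) i j → hn F ν q t c = QK K U := by
    intro c U h
    rw [hn, h, sum_inner, QK]
    refine Finset.sum_congr rfl fun i _ => ?_
    rw [sum_inner]
    refine Finset.sum_congr rfl fun j _ => ?_
    rw [real_inner_smul_left]
  -- from c to U
  have hcU : ∀ c : Fin n → ℝ, gn F q t c = 1 → ∃ U : Fin n → ℝ, ∑ i, U i ^ 2 = 1 ∧
      hn F ν q t c = QK K U := by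
    intro c hc
    obtain ⟨U, h1, h2⟩ := hG.fs' c
    refine ⟨U, ?_, hhn c U h2⟩
    rw [← hgn c U h1, hc]
  -- from U to c
  have hUc : ∀ U : Fin n → ℝ, ∑ i, U i ^ 2 = 1 → ∃ c : Fin n → ℝ, gn F q t c = 1 ∧
      hn F ν q t c = QK K U := by
    intro U hU
    have h1 : L (∑ i, U i • ee i) ∈ TS (n := n) F q t := by
      have h2 : L (∑ i, U i • ee i) ∈ LinearMap.range L.toLinearMap := ⟨_, rfl⟩
      rw [hL] at h2
      exact h2
    rw [TS, Submodule.mem_span_range_iff_exists_fun] at h1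
    obtain ⟨c, hc⟩ := h1
    obtain ⟨U', h2, h3⟩ := hG.fs' c
    have e : ∑ i, U' i • L (ee i) = L (∑ i, U' i • ee i) := by
      rw [map_sum]
      exact Finset.sum_congr rfl fun i _ => by rw [map_smul]
    have h4 : L (∑ i, U' i • ee i) = L (∑ i, U i • ee i) := by
      rw [← e, ← h2, ← hc]
      rfl
    have h5 := L.injective h4
    have h6 : U' = U := by
      funext j
      rw [← sum_ee n U' j, ← sum_ee n U j, h5]
    subst h6
    exact ⟨c, by rw [hgn c U' h2, hU], hhn c U' h3⟩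
  rw [hth, hH, hh]
  have hn0 : (0 : ℝ) < n := by exact_mod_cast hn1
  refine ⟨Finset.sum_nonneg fun i _ => Finset.sum_nonneg fun j _ => sq_nonneg _, tr_cs K, ?_, ?_,
    ?_, ?_, ?_⟩
  · intro c hc
    obtain ⟨U, hU, hc'⟩ := hcU c hc
    rw [hc']
    refine ⟨?_, QK_tf hn1 K U hU⟩
    have := QK_cs K U
    rwa [hU, one_pow, mul_one] at this
  · obtain ⟨U, hU, hU'⟩ := QK_ex hn1 K hsym
    obtain ⟨c, hc, hc'⟩ := hUc U hU
    exact ⟨c, hc, by rw [hc']; exact hU'⟩
  · obtain ⟨a, ha⟩ := tr_max hn1 K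
    obtain ⟨c, hc, hc'⟩ := hUc (eU a) (sum_eU a)
    exact ⟨c, hc, by rw [hc', QK_eU]; exact ha⟩
  · intro lo hlo
    have h1 : ∀ a, lo ≤ K a a := by
      intro a
      obtain ⟨c, hc, hc'⟩ := hUc (eU a) (sum_eU a)
      have := hlo c hc
      rwa [hc', QK_eU] at this
    calc (n : ℝ) * lo = ∑ _a : Fin n, lo := by simp
      _ ≤ ∑ i, K i i := Finset.sum_le_sum fun i _ => h1 i
  · intro hi hhi
    obtain ⟨U, hU, hU'⟩ := QK_ex hn1 K hsym
    obtain ⟨c, hc, hc'⟩ := hUc U hU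
    have h1 := hhi c hc
    rw [hc'] at h1
    refine hU'.trans (mul_le_mul_of_nonneg_left ?_ hn0.le)
    rw [← sq_abs]
    have := abs_nonneg (QK K U)
    gcongr

end Helper34.HSF
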