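import Pool.Agent.Helper35.HSF.StA

/-! # Project HSF, module LOC: local structure of the positivity set of a function of class C^2. -/

set_option autoImplicit false

namespace Helper34.HSF

open Helper35.HSF Helper35.MS Helper35.PI Helper35.PI2 Helper32.CL
open scoped ContDiff Topology
open Set Filter Metric

section General

variable {E : Type*} [NormedAddCommGroup E] [NormedSpace ℝ E]

theorem mono1 (φ : E → ℝ) (a v : E) (τ : ℝ) (hτ : 0 < τ)
    (hd : ∀ s ∈ Icc (0 : ℝ) τ, DifferentiableAt ℝ φ (a + s • v))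
    (hp : ∀ s ∈ Ioo (0 : ℝ) τ, 0 < fderiv ℝ φ (a + s • v) v) : φ a < φ (a + τ • v) := by
  have hder : ∀ s ∈ Icc (0 : ℝ) τ,
      HasDerivAt (fun s : ℝ => φ (a + s • v)) (fderiv ℝ φ (a + s • v) v) s := by
    intro s hs
    have h1 : HasDerivAt (fun s : ℝ => a + s • v) v s := by
      have := ((hasDerivAt_id s).smul_const v).const_add a
      simpa using this
    exact (hd s hs).hasFDerivAt.comp_hasDerivAt s h1
  have hmono : StrictMonoOn (fun s : ℝ => φ (a + s • v)) (Icc 0 τ) := by
    apply strictMonoOn_of_deriv_pos (convex_Icc 0 τ)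
    · intro s hs
      exact (hder s hs).continuousAt.continuousWithinAt
    · intro s hs
      rw [interior_Icc] at hs
      rw [(hder s (Ioo_subset_Icc_self hs)).deriv]
      exact hp s hs
  have := hmono (left_mem_Icc.2 hτ.le) (right_mem_Icc.2 hτ.le) hτ
  simpa using this

/-- Vertical monotonicity in a convex set. -/
theorem mono2 (φ : E → ℝ) (B : Set E) (hB : Convex ℝ B) (v : E)
    (hd : ∀ y ∈ B, DifferentiableAt ℝ φ y ∧ 0 < fderiv ℝ φ y v) (a : E) (τ : ℝ) (hτ : 0 < τ)
    (ha : a ∈ B) (hb : a + τ • v ∈ B) : φ a < φ (a + τ • v) := by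
  have hmem : ∀ s ∈ Icc (0 : ℝ) τ, a + s • v ∈ B := by
    intro s hs
    have h := hB.add_smul_mem ha hb (t := s / τ)
      ⟨div_nonneg hs.1 hτ.le, (div_le_one hτ).2 hs.2⟩
    have e : (s / τ) • (τ • v) = s • v := by
      rw [smul_smul, div_mul_cancel₀ _ hτ.ne']
    rwa [e] at h
  exact mono1 φ a v τ hτ (fun s hs => (hd _ (hmem s hs)).1)
    (fun s hs => (hd _ (hmem s (Ioo_subset_Icc_self hs))).2)

theorem precon_punct (h : 1 < Module.rank ℝ E) (x : E) (ρ : ℝ) :
    IsPreconnected (ball x ρ \ {x}) := by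
  have h1 : IsPreconnected (Ioo (0 : ℝ) ρ ×ˢ sphere (0 : E) 1) :=
    isPreconnected_Ioo.prod (isPreconnected_sphere h 0 1)
  have h2 : IsPreconnected ((fun p : ℝ × E => x + p.1 • p.2) '' (Ioo (0 : ℝ) ρ ×ˢ sphere (0 : E) 1)) :=
    h1.image _ (by fun_prop)
  convert h2 using 1
  ext y
  simp only [mem_diff, mem_ball, mem_singleton_iff, mem_image, mem_prod, mem_Ioo, mem_sphere,
    Prod.exists, dist_zero_right]
  constructor
  · rintro ⟨hy, hne⟩
    have hne' : y - x ≠ 0 := sub_ne_zero.2 hne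
    have hpos : 0 < ‖y - x‖ := norm_pos_iff.2 hne'
    refine ⟨‖y - x‖, ‖y - x‖⁻¹ • (y - x), ⟨⟨hpos, by rwa [← dist_eq_norm]⟩, ?_⟩, ?_⟩
    · rw [norm_smul, norm_inv, norm_norm, inv_mul_cancel₀ hpos.ne']
    · rw [smul_smul, mul_inv_cancel₀ hpos.ne', one_smul]
      abel
  · rintro ⟨s, u, ⟨⟨hs0, hsρ⟩, hu⟩, rfl⟩
    constructor
    · rw [dist_eq_norm, add_sub_cancel_left, norm_smul, hu, mul_one, Real.norm_eq_abs,
        abs_of_pos hs0]
      exact hsρ
    · intro h0
      have h3 : s • u = 0 := by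
        have := add_left_cancel (a := x) (b := s • u) (c := 0) (by rw [h0, add_zero])
        exact this
      rcases smul_eq_zero.1 h3 with h4 | h4
      · exact hs0.ne' h4
      · rw [h4, norm_zero] at hu
        exact zero_ne_one hu

end General

section FD

variable {n : ℕ}

/-- A nondegenerate minimum. -/
theorem pos_near (φ : EE n → ℝ) (x : EE n) (hφ : ContDiffAt ℝ 2 φ x) (h0 : φ x = 0)
    (h1 : fderiv ℝ φ x = 0)
    (h2 : ∀ v : EE n, v ≠ 0 → 0 < fderiv ℝ (fun y => fderiv ℝ φ y v) x v) :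
    ∃ r > 0, ∀ y ∈ ball x r, y ≠ x → 0 < φ y := by
  have hdf : ContDiffAt ℝ 1 (fderiv ℝ φ) x := hφ.fderiv_right (by norm_num)
  have hdd : DifferentiableAt ℝ (fderiv ℝ φ) x := hdf.differentiableAt (by norm_num)
  have hH : ∀ v : EE n, fderiv ℝ (fun y => fderiv ℝ φ y v) x v
      = fderiv ℝ (fderiv ℝ φ) x v v := by
    intro v
    have h3 : HasFDerivAt (fun y => fderiv ℝ φ y v) _ x :=
      hdd.hasFDerivAt.clm_apply (hasFDerivAt_const v x)
    rw [h3.fderiv]
    simp
  -- lower bound of the Hessian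
  obtain ⟨c, hc, hcv⟩ : ∃ c > 0, ∀ v : EE n, c * ‖v‖ ^ 2 ≤ fderiv ℝ (fderiv ℝ φ) x v v := by
    by_cases hne : (sphere (0 : EE n) 1).Nonempty
    · have hcont : Continuous fun v : EE n => fderiv ℝ (fderiv ℝ φ) x v v := by fun_prop
      obtain ⟨u, hu, hmin⟩ := (isCompact_sphere (0 : EE n) 1).exists_isMinOn hne hcont.continuousOn
      have hu0 : u ≠ 0 := by
        rintro rfl
        simp at hu
      refine ⟨fderiv ℝ (fderiv ℝ φ) x u u, by rw [← hH]; exact h2 u hu0, ?_⟩
      intro v
      by_cases hv : v = 0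
      · subst hv; simp
      · have hv' : 0 < ‖v‖ := norm_pos_iff.2 hv
        have h4 : ‖v‖⁻¹ • v ∈ sphere (0 : EE n) 1 := by
          rw [mem_sphere, dist_zero_right, norm_smul, norm_inv, norm_norm, inv_mul_cancel₀ hv'.ne']
        have h5 := hmin h4
        simp only [mem_setOf_eq, map_smul, ContinuousLinearMap.coe_smul', Pi.smul_apply, smul_eq_mul] at h5
        have h6 : ‖v‖ ^ 2 * (‖v‖⁻¹ * (‖v‖⁻¹ * fderiv ℝ (fderiv ℝ φ) x v v))
            = fderiv ℝ (fderiv ℝ φ) x v v := by
          field_simp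
        calc _ = ‖v‖ ^ 2 * (fderiv ℝ (fderiv ℝ φ) x u u) := by ring
          _ ≤ ‖v‖ ^ 2 * (‖v‖⁻¹ * (‖v‖⁻¹ * fderiv ℝ (fderiv ℝ φ) x v v)) :=
              mul_le_mul_of_nonneg_left h5 (by positivity)
          _ = _ := h6
    · refine ⟨1, one_pos, fun v => ?_⟩
      by_cases hv : v = 0
      · subst hv; simp
      · exfalso
        apply hne
        have hv' : 0 < ‖v‖ := norm_pos_iff.2 hv
        refine ⟨‖v‖⁻¹ • v, ?_⟩
        rw [mem_sphere, dist_zero_right, norm_smul, norm_inv, norm_norm, inv_mul_cancel₀ hv'.ne']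
  -- Taylor
  have hev1 : ∀ᶠ y in 𝓝 x, DifferentiableAt ℝ φ y :=
    (hφ.eventually (by simp)).mono fun y hy => hy.differentiableAt (by norm_num)
  have hev2 : ∀ᶠ y in 𝓝 x, ‖fderiv ℝ φ y - fderiv ℝ φ x - fderiv ℝ (fderiv ℝ φ) x (y - x)‖
      ≤ (c / 2) * ‖y - x‖ := by
    have := hdd.hasFDerivAt.isLittleO.def (c := c / 2) (by positivity)
    exact this
  obtain ⟨r, hr, hball⟩ := Metric.eventually_nhds_iff_ball.1 (hev1.and hev2)
  refine ⟨r, hr, fun y hy hyx => ?_⟩
  set v := y - x with hv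
  have hv0 : v ≠ 0 := sub_ne_zero.2 hyx
  have hv' : 0 < ‖v‖ := norm_pos_iff.2 hv0
  have hvr : ‖v‖ < r := by rw [hv, ← dist_eq_norm]; exact hy
  have hmem : ∀ s ∈ Icc (0 : ℝ) 1, x + s • v ∈ ball x r := by
    intro s hs
    rw [mem_ball, dist_eq_norm, add_sub_cancel_left, norm_smul, Real.norm_eq_abs, abs_of_nonneg hs.1]
    calc s * ‖v‖ ≤ 1 * ‖v‖ := mul_le_mul_of_nonneg_right hs.2 (norm_nonneg _)
      _ < r := by rw [one_mul]; exact hvr
  have hmono := mono1 φ x v 1 one_pos (fun s hs => (hball _ (hmem s hs)).1) (by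
    intro s hs
    have h3 := (hball _ (hmem s (Ioo_subset_Icc_self hs))).2
    rw [h1, sub_zero, add_sub_cancel_left] at h3
    have h4 : ‖(fderiv ℝ φ (x + s • v) - fderiv ℝ (fderiv ℝ φ) x (s • v)) v‖
        ≤ c / 2 * ‖s • v‖ * ‖v‖ :=
      (ContinuousLinearMap.le_opNorm _ _).trans
        (mul_le_mul_of_nonneg_right h3 (norm_nonneg _))
    rw [Real.norm_eq_abs, norm_smul, Real.norm_eq_abs, abs_of_pos hs.1] at h4
    have h5 := (abs_le.1 h4).1
    have h6 : (fderiv ℝ φ (x + s • v) - fderiv ℝ (fderiv ℝ φ) x (s • v)) v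
        = fderiv ℝ φ (x + s • v) v - s * fderiv ℝ (fderiv ℝ φ) x v v := by
      simp
    rw [h6] at h5
    have h7 := mul_le_mul_of_nonneg_left (hcv v) hs.1.le
    have h8 : 0 < s * (c * ‖v‖ ^ 2) := mul_pos hs.1 (by positivity)
    nlinarith)
  rw [h0, one_smul] at hmono
  have e : x + v = y := by rw [hv]; abel
  rwa [e] at hmono

/-- A regular point. -/
theorem reg_near (φ : EE n → ℝ) (x : EE n) (hφ : ContDiffAt ℝ 2 φ x) (h0 : φ x = 0)
    (h1 : fderiv ℝ φ x ≠ 0) (U : Set (EE n)) (hU : U ∈ 𝓝 x) :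
    ∃ B, IsOpen B ∧ x ∈ B ∧ B ⊆ U ∧ IsPreconnected (B ∩ {y | 0 < φ y}) ∧
        B ∩ {y | 0 ≤ φ y} ⊆ closure (B ∩ {y | 0 < φ y}) := by
  obtain ⟨v, hv⟩ : ∃ v, fderiv ℝ φ x v = 1 := by
    obtain ⟨u, hu⟩ : ∃ u, fderiv ℝ φ x u ≠ 0 := by
      by_contra hcon
      push Not at hcon
      exact h1 (ContinuousLinearMap.ext hcon)
    refine ⟨(fderiv ℝ φ x u)⁻¹ • u, ?_⟩
    rw [map_smul, smul_eq_mul, inv_mul_cancel₀ hu]
  set L : EE n →L[ℝ] ℝ := fderiv ℝ φ x with hL
  have hdf : ContDiffAt ℝ 1 (fderiv ℝ φ) x := hφ.fderiv_right (by norm_num)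
  have hev1 : ∀ᶠ y in 𝓝 x, DifferentiableAt ℝ φ y :=
    (hφ.eventually (by simp)).mono fun y hy => hy.differentiableAt (by norm_num)
  have hev2 : ∀ᶠ y in 𝓝 x, 0 < fderiv ℝ φ y v := by
    have hc : ContinuousAt (fun y => fderiv ℝ φ y v) x :=
      hdf.continuousAt.clm_apply continuousAt_const
    apply hc.eventually_const_lt
    change 0 < L v
    rw [hv]
    exact one_pos
  obtain ⟨ρ, hρ, hball⟩ := Metric.eventually_nhds_iff_ball.1 ((hev1.and hev2).and hU)
  obtain ⟨δ, hδ, hδρ⟩ : ∃ δ > 0, δ * ‖v‖ < ρ / 2 := by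
    refine ⟨ρ / (2 * (‖v‖ + 1)), by positivity, ?_⟩
    rw [div_mul_eq_mul_div, div_lt_div_iff₀ (by positivity) (by norm_num)]
    have := norm_nonneg v
    nlinarith
  -- the point above x
  have hsm : ∀ s : ℝ, |s| ≤ δ → x + s • v ∈ ball x ρ := by
    intro s hs
    rw [mem_ball, dist_eq_norm, add_sub_cancel_left, norm_smul, Real.norm_eq_abs]
    calc |s| * ‖v‖ ≤ δ * ‖v‖ := mul_le_mul_of_nonneg_right hs (norm_nonneg _)
      _ < ρ := by linarith
  have hx0 : 0 < φ (x + (δ / 2) • v) := by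
    rw [← h0]
    refine mono2 φ (ball x ρ) (convex_ball x ρ) v (fun y hy => (hball y hy).1) x (δ / 2)
      (by positivity) (mem_ball_self hρ) (hsm _ ?_)
    rw [abs_of_pos (by positivity)]
    linarith
  obtain ⟨r1, hr1, hr1b⟩ : ∃ r1 > 0, ∀ z ∈ ball (x + (δ / 2) • v) r1, 0 < φ z := by
    have hmem : x + (δ / 2) • v ∈ ball x ρ := hsm _ (by rw [abs_of_pos (by positivity)]; linarith)
    have hc : ContinuousAt φ (x + (δ / 2) • v) := (hball _ hmem).1.1.continuousAt
    exact Metric.eventually_nhds_iff_ball.1 (hc.eventually_const_lt hx0)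
  set r := min r1 (ρ / 2) with hr
  have hrpos : 0 < r := lt_min hr1 (by positivity)
  let Pl : EE n →L[ℝ] EE n := ContinuousLinearMap.id ℝ (EE n) - L.smulRight v
  have hPl : ∀ z, Pl z = z - L z • v := fun z => by simp [Pl]
  let B : Set (EE n) := {y | ‖Pl (y - x)‖ < r ∧ |L (y - x)| < δ}
  have hBo : IsOpen B := by
    have c1 : Continuous fun y : EE n => ‖Pl (y - x)‖ := by fun_prop
    have c2 : Continuous fun y : EE n => |L (y - x)| := by fun_prop
    exact (isOpen_lt c1 continuous_const).inter (isOpen_lt c2 continuous_const)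
  have hBx : x ∈ B := by
    refine ⟨?_, ?_⟩
    · rw [sub_self, map_zero, norm_zero]; exact hrpos
    · rw [sub_self, map_zero, abs_zero]; exact hδ
  have hBsub : B ⊆ ball x ρ := by
    intro y hy
    have e : y - x = Pl (y - x) + L (y - x) • v := by rw [hPl]; abel
    rw [mem_ball, dist_eq_norm, e]
    calc ‖Pl (y - x) + L (y - x) • v‖ ≤ ‖Pl (y - x)‖ + ‖L (y - x) • v‖ := norm_add_le _ _
      _ = ‖Pl (y - x)‖ + |L (y - x)| * ‖v‖ := by rw [norm_smul, Real.norm_eq_abs]
      _ < ρ := by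
          have h3 : ‖Pl (y - x)‖ < ρ / 2 := lt_of_lt_of_le hy.1 (min_le_right _ _)
          have h4 : |L (y - x)| * ‖v‖ ≤ δ * ‖v‖ :=
            mul_le_mul_of_nonneg_right hy.2.le (norm_nonneg _)
          linarith
  have hBc : Convex ℝ B := by
    intro a ha b hb p q hp hq hpq
    have e : p • a + q • b - x = p • (a - x) + q • (b - x) := by
      have : x = (p + q) • x := by rw [hpq, one_smul]
      nth_rewrite 1 [this]
      rw [add_smul, smul_sub, smul_sub]
      abel
    refine ⟨?_, ?_⟩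
    · rw [e, map_add, map_smul, map_smul]
      calc ‖p • Pl (a - x) + q • Pl (b - x)‖ ≤ ‖p • Pl (a - x)‖ + ‖q • Pl (b - x)‖ :=
            norm_add_le _ _
        _ = p * ‖Pl (a - x)‖ + q * ‖Pl (b - x)‖ := by
            rw [norm_smul, norm_smul, Real.norm_eq_abs, Real.norm_eq_abs, abs_of_nonneg hp,
              abs_of_nonneg hq]
        _ < r := by
            have h3 := ha.1
            have h4 := hb.1
            rcases hp.eq_or_lt with h5 | h5
            · rw [← h5, zero_add] at hpq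
              rw [← h5, hpq]; linarith
            · nlinarith [mul_lt_mul_of_pos_left h3 h5, mul_le_mul_of_nonneg_left h4.le hq]
    · rw [e, map_add, map_smul, map_smul, smul_eq_mul, smul_eq_mul]
      calc |p * L (a - x) + q * L (b - x)| ≤ |p * L (a - x)| + |q * L (b - x)| :=
            abs_add_le _ _
        _ = p * |L (a - x)| + q * |L (b - x)| := by
            rw [abs_mul, abs_mul, abs_of_nonneg hp, abs_of_nonneg hq]
        _ < δ := by
            have h3 := ha.2
            have h4 := hb.2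
            rcases hp.eq_or_lt with h5 | h5
            · rw [← h5, zero_add] at hpq
              rw [← h5, hpq]; linarith
            · nlinarith [mul_lt_mul_of_pos_left h3 h5, mul_le_mul_of_nonneg_left h4.le hq]
  have hBd : ∀ y ∈ B, DifferentiableAt ℝ φ y ∧ 0 < fderiv ℝ φ y v := fun y hy =>
    (hball y (hBsub hy)).1
  have hx0B : x + (δ / 2) • v ∈ B := by
    refine ⟨?_, ?_⟩
    · rw [add_sub_cancel_left, hPl, map_smul, hv, smul_eq_mul, mul_one, sub_self, norm_zero]
      exact hrpos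
    · rw [add_sub_cancel_left, map_smul, hv, smul_eq_mul, mul_one, abs_of_pos (by positivity)]
      linarith
  refine ⟨B, hBo, hBx, fun y hy => (hball y (hBsub hy)).2, ?_, ?_⟩
  · -- connectedness
    refine isPreconnected_of_forall (x + (δ / 2) • v) ?_
    rintro y ⟨hyB, hyp⟩
    -- the point at the level δ/2
    set y' := x + Pl (y - x) + (δ / 2) • v with hy'
    have hy'1 : y' - x = Pl (y - x) + (δ / 2) • v := by rw [hy']; abel
    have hLP : L (Pl (y - x)) = 0 := by
      rw [hPl, map_sub, map_smul, hv, smul_eq_mul, mul_one, sub_self]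
    have hLy' : L (y' - x) = δ / 2 := by
      rw [hy'1, map_add, hLP, map_smul, hv, smul_eq_mul]; ring
    have hPy' : Pl (y' - x) = Pl (y - x) := by
      rw [hPl (y' - x), hLy', hy'1]; abel
    have hy'B : y' ∈ B := by
      refine ⟨?_, ?_⟩
      · rw [hPy']; exact hyB.1
      · rw [hLy', abs_of_pos (by positivity)]; linarith
    have hyy' : y' = y + (δ / 2 - L (y - x)) • v := by
      have e : y = x + (Pl (y - x) + L (y - x) • v) := by rw [hPl]; abel
      rw [sub_smul, hy']
      nth_rewrite 2 [e]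
      abel
    have hd0 : dist y' (x + (δ / 2) • v) < r1 := by
      have e : y' - (x + (δ / 2) • v) = Pl (y - x) := by rw [hy']; abel
      rw [dist_eq_norm, e]
      exact lt_of_lt_of_le hyB.1 (min_le_left _ _)
    have hy'p : 0 < φ y' := hr1b y' hd0
    -- first segment
    have hs1 : segment ℝ (x + (δ / 2) • v) y' ⊆ B ∩ {y | 0 < φ y} := by
      intro z hz
      refine ⟨hBc.segment_subset hx0B hy'B hz, ?_⟩
      apply hr1b z
      exact (convex_ball (x + (δ / 2) • v) r1).segment_subset (mem_ball_self hr1) hd0 hz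
    -- second segment
    have hs2 : segment ℝ y' y ⊆ B ∩ {y | 0 < φ y} := by
      intro z hz
      have hzB : z ∈ B := hBc.segment_subset hy'B hyB hz
      refine ⟨hzB, ?_⟩
      rw [segment_symm, segment_eq_image'] at hz
      obtain ⟨θ, hθ, rfl⟩ := hz
      have e1 : y' - y = (δ / 2 - L (y - x)) • v := by rw [hyy']; abel
      simp only [e1, smul_smul] at hzB ⊢
      set τ := δ / 2 - L (y - x) with hτ
      rcases lt_trichotomy τ 0 with h3 | h3 | h3
      · -- y is above y'
        have e2 : y + (θ * τ) • v = y' + ((θ - 1) * τ) • v := by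
          rw [hyy', add_assoc, ← add_smul]
          congr 2
          ring
        rw [e2] at hzB
        simp only [mem_setOf_eq]
        rw [e2]
        rcases hθ.2.eq_or_lt with h4 | h4
        · rw [h4, sub_self, zero_mul, zero_smul, add_zero]; exact hy'p
        · exact hy'p.trans (mono2 φ B hBc v hBd y' _ (by nlinarith) hy'B hzB)
      · rw [h3, mul_zero, zero_smul, add_zero]; exact hyp
      · simp only [mem_setOf_eq]
        rcases hθ.1.eq_or_lt with h4 | h4
        · rw [← h4, zero_mul, zero_smul, add_zero]; exact hyp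
        · exact lt_trans hyp (mono2 φ B hBc v hBd y _ (mul_pos h4 h3) hyB hzB)
    refine ⟨segment ℝ (x + (δ / 2) • v) y' ∪ segment ℝ y' y, union_subset hs1 hs2,
      Or.inl (left_mem_segment ℝ _ _), Or.inr (right_mem_segment ℝ _ _), ?_⟩
    exact IsPreconnected.union y' (right_mem_segment ℝ _ _) (left_mem_segment ℝ _ _)
      (convex_segment _ _).isPreconnected (convex_segment _ _).isPreconnected
  · -- closure
    rintro y ⟨hyB, hyp⟩
    have ht : Tendsto (fun τ : ℝ => y + τ • v) (𝓝[>] 0) (𝓝 y) := by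
      have hc : Continuous fun τ : ℝ => y + τ • v := by fun_prop
      have h3 := hc.tendsto 0
      rw [zero_smul, add_zero] at h3
      exact h3.mono_left nhdsWithin_le_nhds
    refine mem_closure_of_tendsto ht ?_
    have h4 : ∀ᶠ τ : ℝ in 𝓝[>] 0, y + τ • v ∈ B := ht.eventually (hBo.mem_nhds hyB)
    filter_upwards [h4, self_mem_nhdsWithin] with τ h5 h6
    exact ⟨h5, lt_of_le_of_lt hyp (mono2 φ B hBc v hBd y τ h6 hyB h5)⟩

end FD

theorem hLOC : Helper35.HSF.StLOC := by
  intro n hn φ x hφ h0 hcrit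
  by_cases h1 : fderiv ℝ φ x = 0
  · rcases hcrit h1 with h2 | h2
    · right
      obtain ⟨r, hr, hpos⟩ := pos_near φ x hφ h0 h1 h2
      intro U hU
      obtain ⟨ρ0, hρ0, hsub⟩ := Metric.mem_nhds_iff.1 hU
      set ρ := min r ρ0 with hρ
      have hρpos : 0 < ρ := lt_min hr hρ0
      have hset : ball x ρ ∩ {y | 0 < φ y} = ball x ρ \ {x} := by
        ext y
        constructor
        · rintro ⟨hy, hyp⟩
          refine ⟨hy, ?_⟩
          rintro rfl
          simp only [mem_setOf_eq] at hyp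
          exact (hyp.ne' h0).elim
        · rintro ⟨hy, hyx⟩
          exact ⟨hy, hpos y (ball_subset_ball (min_le_left _ _) hy) hyx⟩
      have hrank : 1 < Module.rank ℝ (EE n) := by
        rw [← Module.finrank_eq_rank, finrank_euclideanSpace_fin]
        exact_mod_cast hn
      refine ⟨ball x ρ, isOpen_ball, mem_ball_self hρpos,
        (ball_subset_ball (min_le_right _ _)).trans hsub, ?_, ?_⟩
      · rw [hset]
        exact precon_punct hrank x ρ
      · rw [hset]
        have hnt : Nontrivial (EE n) := by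
          have : Nonempty (Fin n) := ⟨⟨0, by omega⟩⟩
          infer_instance
        have hnb : (𝓝[≠] x).NeBot := Module.punctured_nhds_neBot ℝ (EE n) x
        have hd : Dense ({x}ᶜ : Set (EE n)) := dense_compl_singleton x
        exact inter_subset_left.trans (hd.open_subset_closure_inter isOpen_ball)
    · left
      have hφ' : ContDiffAt ℝ 2 (fun y => -φ y) x := hφ.neg
      have e1 : ∀ y, fderiv ℝ (fun y => -φ y) y = -fderiv ℝ φ y := fun y => fderiv_fun_neg
      obtain ⟨r, hr, hpos⟩ := pos_near (fun y => -φ y) x hφ' (by simp [h0]) (by rw [e1, h1, neg_zero])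
        (by
          intro v hv
          have e2 : (fun y => fderiv ℝ (fun y => -φ y) y v) = fun y => -(fderiv ℝ φ y v) := by
            funext y
            rw [e1]
            rfl
          rw [e2, fderiv_fun_neg]
          have := h2 v hv
          simp only [ContinuousLinearMap.neg_apply]
          linarith)
      exact ⟨ball x r, ball_mem_nhds x hr, fun y hy hyx => by
        have := hpos y hy hyx
        linarith⟩
  · right
    intro U hU
    exact reg_near φ x hφ h0 h1 U hU

end Helper34.HSF
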